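import Pool.Agent.helper60.DK.Spec

set_option autoImplicit false

namespace Pool.Agent.helper60.DK

open Polynomial Finset

theorem P2 (hW : WF_stmt) (hH : HALF_stmt) : P2_stmt := by
  intro p hp h5 h3
  have hodd : p % 2 = 1 := by
    rcases hp.out.eq_two_or_odd with h | h
    · omega
    · exact h
  have hn : nn p % 2 = 1 := by
    unfold nn
    omega
  have hnp : nn p < p := by
    unfold nn
    omega
  have h0 : aeval (-1 / 2 : ZMod p) (Dz (nn p)) = 0 := (hH p (ZMod p) h5 (nn p) hn hnp).1
  have h2 : (2 : ZMod p) ≠ 0 := by
    have := cast_ne_zero_of_lt (p := p) (m := 2) (by omega) (by omega)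
    exact_mod_cast this
  have h3' : (3 : ZMod p) ≠ 0 := by
    have := cast_ne_zero_of_lt (p := p) (m := 3) (by omega) (by omega)
    exact_mod_cast this
  have h4 : (4 : ZMod p) ≠ 0 := by
    have : (4 : ZMod p) = 2 * 2 := by norm_num
    rw [this]
    exact mul_ne_zero h2 h2
  constructor
  · have h := hW p (ZMod p) h5 2 (-1 / 2) (by
      have : (1 : ZMod p) + 2 = 3 := by norm_num
      rw [this]
      exact h3') (by
      field_simp
      ring)
    rw [h, h0]
    ring
  · have h := hW p (ZMod p) h5 (-1 / 4) (-1 / 2) (by
      have : (1 : ZMod p) + -1 / 4 = 3 / 4 := by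
        field_simp
        ring
      rw [this]
      exact div_ne_zero h3' h4) (by
      have h1 : (1 : ZMod p) + -1 / 4 = 3 / 4 := by
        field_simp
        ring
      rw [h1]
      field_simp
      ring)
    rw [h, h0]
    ring

end Pool.Agent.helper60.DK
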